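import Mathlib

/-!
# Positive differences of finite sets of natural numbers

Basic lemmas on the number of positive differences: generic extensions, `B_3`-sets.
-/

namespace Pool.Agent.Q258.Divot

open Finset

/-- The set of positive differences of a finite set of natural numbers. -/
def posDiff (S : Finset ℕ) : Finset ℕ :=
  ((S ×ˢ S).filter (fun x => x.1 < x.2)).image (fun x => x.2 - x.1)

lemma mem_posDiff {S : Finset ℕ} {d : ℕ} :
    d ∈ posDiff S ↔ ∃ a ∈ S, ∃ b ∈ S, a < b ∧ b - a = d := by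
  simp only [posDiff, mem_image, mem_filter, mem_product, Prod.exists]
  constructor
  · rintro ⟨a, b, ⟨⟨ha, hb⟩, hab⟩, h⟩
    exact ⟨a, ha, b, hb, hab, h⟩
  · rintro ⟨a, ha, b, hb, hab, h⟩
    exact ⟨a, b, ⟨⟨ha, hb⟩, hab⟩, h⟩

lemma posDiff_mono {S T : Finset ℕ} (h : S ⊆ T) : posDiff S ⊆ posDiff T := by
  intro d hd
  obtain ⟨a, ha, b, hb, hab, hd⟩ := mem_posDiff.1 hd
  exact mem_posDiff.2 ⟨a, h ha, b, h hb, hab, hd⟩

/-- The distance of two natural numbers. -/
def dl (a b : ℕ) : ℕ := (a - b) + (b - a)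

lemma dl_mem {S : Finset ℕ} {a b : ℕ} (ha : a ∈ S) (hb : b ∈ S) (h : a ≠ b) :
    dl a b ∈ posDiff S := by
  rcases Nat.lt_or_gt_of_ne h with h | h
  · exact mem_posDiff.2 ⟨a, ha, b, hb, h, by unfold dl; omega⟩
  · exact mem_posDiff.2 ⟨b, hb, a, ha, h, by unfold dl; omega⟩

/-- The elements which are tied to `P` by a coincidence of differences. -/
def Bad (P : Finset ℕ) : Finset ℕ :=
  ((P ×ˢ P ×ˢ P).filter (fun x => x.2.2 ≤ x.1 + x.2.1)).image (fun x => x.1 + x.2.1 - x.2.2) ∪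
  ((P ×ˢ P).filter (fun x => 2 ∣ x.1 + x.2)).image (fun x => (x.1 + x.2) / 2)

lemma mem_Bad {P : Finset ℕ} {z : ℕ} :
    z ∈ Bad P ↔ (∃ a ∈ P, ∃ b ∈ P, ∃ c ∈ P, z + c = a + b) ∨ (∃ a ∈ P, ∃ b ∈ P, 2 * z = a + b) := by
  simp only [Bad, mem_union, mem_image, mem_filter, mem_product, Prod.exists]
  constructor
  · rintro (⟨a, b, c, ⟨⟨ha, hb, hc⟩, hle⟩, h⟩ | ⟨a, b, ⟨⟨ha, hb⟩, hd⟩, h⟩)
    · exact Or.inl ⟨a, ha, b, hb, c, hc, by omega⟩
    · exact Or.inr ⟨a, ha, b, hb, by omega⟩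
  · rintro (⟨a, ha, b, hb, c, hc, h⟩ | ⟨a, ha, b, hb, h⟩)
    · exact Or.inl ⟨a, b, c, ⟨⟨ha, hb, hc⟩, by omega⟩, by omega⟩
    · exact Or.inr ⟨a, b, ⟨⟨ha, hb⟩, by omega⟩, by omega⟩

lemma Bad_mono {P Q : Finset ℕ} (h : P ⊆ Q) : Bad P ⊆ Bad Q := by
  intro z hz
  rw [mem_Bad] at hz ⊢
  rcases hz with ⟨a, ha, b, hb, c, hc, hz⟩ | ⟨a, ha, b, hb, hz⟩
  · exact Or.inl ⟨a, h ha, b, h hb, c, h hc, hz⟩
  · exact Or.inr ⟨a, h ha, b, h hb, hz⟩

lemma card_Bad (P : Finset ℕ) : (Bad P).card ≤ P.card ^ 3 + P.card ^ 2 := by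
  unfold Bad
  refine (card_union_le _ _).trans (add_le_add ?_ ?_)
  · refine card_image_le.trans ((card_filter_le _ _).trans ?_)
    rw [card_product, card_product]
    apply le_of_eq; ring
  · refine card_image_le.trans ((card_filter_le _ _).trans ?_)
    rw [card_product]
    apply le_of_eq; ring

lemma not_mem_of_not_Bad {P : Finset ℕ} {z : ℕ} (h : z ∉ Bad P) : z ∉ P := fun hz =>
  h (mem_Bad.2 (Or.inl ⟨z, hz, z, hz, z, hz, rfl⟩))

/-- Adding a generic element creates `|P|` new differences. -/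
lemma card_posDiff_insert {P : Finset ℕ} {z : ℕ} (hz : z ∉ Bad P) :
    (posDiff (insert z P)).card = (posDiff P).card + P.card := by
  have hzP := not_mem_of_not_Bad hz
  have hun : posDiff (insert z P) = posDiff P ∪ P.image (fun a => dl a z) := by
    ext d
    rw [mem_union, mem_image]
    constructor
    · intro hd
      obtain ⟨a, ha, b, hb, hab, hd⟩ := mem_posDiff.1 hd
      rw [mem_insert] at ha hb
      rcases ha with rfl | ha
      · rcases hb with rfl | hb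
        · omega
        · exact Or.inr ⟨b, hb, by unfold dl; omega⟩
      · rcases hb with rfl | hb
        · exact Or.inr ⟨a, ha, by unfold dl; omega⟩
        · exact Or.inl (mem_posDiff.2 ⟨a, ha, b, hb, hab, hd⟩)
    · rintro (hd | ⟨a, ha, rfl⟩)
      · exact posDiff_mono (subset_insert _ _) hd
      · exact dl_mem (mem_insert_of_mem ha) (mem_insert_self _ _) (fun h => hzP (h ▸ ha))
  have hdis : Disjoint (posDiff P) (P.image (fun a => dl a z)) := by
    rw [Finset.disjoint_left]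
    intro d hd hd'
    obtain ⟨b, hb, c, hc, hbc, rfl⟩ := mem_posDiff.1 hd
    obtain ⟨a, ha, h⟩ := mem_image.1 hd'
    apply hz
    rw [mem_Bad]
    left
    unfold dl at h
    rcases le_total a z with h' | h'
    · exact ⟨a, ha, c, hc, b, hb, by omega⟩
    · exact ⟨a, ha, b, hb, c, hc, by omega⟩
  rw [hun, card_union_of_disjoint hdis, card_image_of_injOn]
  intro a ha b hb h
  by_contra hab
  apply hz
  rw [mem_Bad]
  right
  refine ⟨a, ha, b, hb, ?_⟩
  unfold dl at h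
  simp only at h
  omega

/-- `R` is generic over `Q`. -/
def Gen (Q R : Finset ℕ) : Prop := Disjoint Q R ∧ ∀ z ∈ R, z ∉ Bad ((Q ∪ R).erase z)

instance (Q R : Finset ℕ) : Decidable (Gen Q R) := by unfold Gen; infer_instance

lemma card_posDiff_gen (Q : Finset ℕ) : ∀ R : Finset ℕ, Gen Q R →
    (posDiff (Q ∪ R)).card + Q.card.choose 2 = (posDiff Q).card + (Q.card + R.card).choose 2 := by
  intro R
  induction R using Finset.induction_on with
  | empty => intro _; simp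
  | insert z R hz ih =>
    intro hG
    have hzQ : z ∉ Q := fun h =>
      (Finset.disjoint_left.1 hG.1) h (mem_insert_self _ _)
    have hG' : Gen Q R := by
      refine ⟨hG.1.mono_right (subset_insert _ _), fun w hw hb => ?_⟩
      refine hG.2 w (mem_insert_of_mem hw) (Bad_mono ?_ hb)
      exact erase_subset_erase _ (union_subset_union_right (subset_insert _ _))
    have h1 := ih hG'
    have h2 : z ∉ Bad (Q ∪ R) := by
      have := hG.2 z (mem_insert_self _ _)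
      rwa [union_insert, erase_insert (by simp [hzQ, hz])] at this
    rw [union_insert, card_posDiff_insert h2, card_insert_of_notMem hz]
    have hd : Disjoint Q R := hG'.1
    rw [card_union_of_disjoint hd]
    have h3 : (Q.card + (R.card + 1)).choose 2 = (Q.card + R.card) + (Q.card + R.card).choose 2 := by
      rw [← add_assoc, Nat.choose_succ_succ' (Q.card + R.card) 1, Nat.choose_one_right]
    omega

/-! ### `B_3`-sets -/

/-- `B_3`-sets (sums of three elements are distinct up to order), in a convenient form. -/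
def B3 (F : Finset ℕ) : Prop := ∀ a ∈ F, ∀ b ∈ F, ∀ c ∈ F, ∀ a' ∈ F, ∀ b' ∈ F, ∀ c' ∈ F,
  a + b + c = a' + b' + c' → a = a' ∨ a = b' ∨ a = c'

lemma B3.two {F : Finset ℕ} (h : B3 F) {a b a' b' : ℕ} (ha : a ∈ F) (hb : b ∈ F) (ha' : a' ∈ F)
    (hb' : b' ∈ F) (he : a + b = a' + b') : a = a' ∨ a = b' := by
  rcases h a ha b hb b' hb' a' ha' b' hb' b' hb' (by omega) with h | h | h
  · exact Or.inl h
  · exact Or.inr h
  · exact Or.inr h

lemma B3.mono {F G : Finset ℕ} (h : B3 F) (hG : G ⊆ F) : B3 G :=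
  fun a ha b hb c hc a' ha' b' hb' c' hc' => h a (hG ha) b (hG hb) c (hG hc) a' (hG ha') b' (hG hb')
    c' (hG hc')

lemma B3.gen {F : Finset ℕ} (h : B3 F) : Gen ∅ F := by
  refine ⟨disjoint_empty_left _, fun z hz hb => ?_⟩
  rw [empty_union, mem_Bad] at hb
  rcases hb with ⟨a, ha, b, hb, c, hc, he⟩ | ⟨a, ha, b, hb, he⟩
  · rw [mem_erase] at ha hb hc
    rcases h.two hz hc.2 ha.2 hb.2 he with h' | h'
    · exact ha.1 h'.symm
    · exact hb.1 h'.symm
  · rw [mem_erase] at ha hb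
    rcases h.two hz hz ha.2 hb.2 (by omega) with h' | h'
    · exact ha.1 h'.symm
    · exact hb.1 h'.symm

lemma B3.card_posDiff {F : Finset ℕ} (h : B3 F) : (posDiff F).card = F.card.choose 2 := by
  have := card_posDiff_gen ∅ F h.gen
  have he : posDiff ∅ = ∅ := by decide
  rw [he] at this
  simpa using this

lemma lemA {F : Finset ℕ} (h : B3 F) {y : ℕ} (hy : y ∉ F) :
    ∃ T : Finset ℕ, T.card ≤ 2 ∧ ∀ x ∈ F, dl x y ∈ posDiff F → x ∈ T := by
  have key : ∀ x ∈ F, dl x y ∈ posDiff F → ∃ a ∈ F, ∃ b ∈ F, y + b = x + a := by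
    intro x hx hd
    obtain ⟨b, hb, c, hc, hbc, h⟩ := mem_posDiff.1 hd
    unfold dl at h
    rcases le_total x y with h' | h'
    · exact ⟨c, hc, b, hb, by omega⟩
    · exact ⟨b, hb, c, hc, by omega⟩
  by_cases hex : ∃ x ∈ F, dl x y ∈ posDiff F
  · obtain ⟨x0, hx0, hd0⟩ := hex
    obtain ⟨a0, ha0, b0, hb0, he0⟩ := key x0 hx0 hd0
    refine ⟨{x0, a0}, card_le_two, fun x hx hd => ?_⟩
    obtain ⟨a, ha, b, hb, he⟩ := key x hx hd
    rcases h x hx a ha b0 hb0 x0 hx0 a0 ha0 b hb (by omega) with h' | h' | h'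
    · simp [h']
    · simp [h']
    · exfalso
      have : y = a := by omega
      exact hy (this ▸ ha)
  · exact ⟨∅, by simp, fun x hx hd => absurd ⟨x, hx, hd⟩ hex⟩

lemma lemB {F : Finset ℕ} (h : B3 F) {y : ℕ} :
    ∃ T : Finset ℕ, T.card ≤ 2 ∧ ∀ x ∈ F, (∃ x' ∈ F, x' ≠ x ∧ dl x y = dl x' y) → x ∈ T := by
  have key : ∀ x ∈ F, (∃ x' ∈ F, x' ≠ x ∧ dl x y = dl x' y) → ∃ x' ∈ F, x + x' = 2 * y := by
    rintro x hx ⟨x', hx', hne, he⟩
    refine ⟨x', hx', ?_⟩
    unfold dl at he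
    omega
  by_cases hex : ∃ x ∈ F, ∃ x' ∈ F, x' ≠ x ∧ dl x y = dl x' y
  · obtain ⟨x0, hx0, hd0⟩ := hex
    obtain ⟨a0, ha0, he0⟩ := key x0 hx0 hd0
    refine ⟨{x0, a0}, card_le_two, fun x hx hd => ?_⟩
    obtain ⟨a, ha, he⟩ := key x hx hd
    rcases h.two hx ha hx0 ha0 (by omega) with h' | h' <;> simp [h']
  · exact ⟨∅, by simp, fun x hx hd => absurd ⟨x, hx, hd⟩ hex⟩

lemma lemC {F : Finset ℕ} (h : B3 F) {y z : ℕ} (hyz : y ≠ z) :
    ∃ T : Finset ℕ, T.card ≤ 3 ∧ ∀ x ∈ F, (∃ x' ∈ F, dl x z = dl x' y) → x ∈ T := by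
  have key : ∀ x ∈ F, (∃ x' ∈ F, dl x z = dl x' y) →
      (∃ x' ∈ F, x + y = x' + z) ∨ (∃ x' ∈ F, x + x' = y + z) := by
    rintro x hx ⟨x', hx', he⟩
    unfold dl at he
    by_cases h1 : x + y = x' + z
    · exact Or.inl ⟨x', hx', h1⟩
    · exact Or.inr ⟨x', hx', by omega⟩
  have h1 : ∃ T : Finset ℕ, T.card ≤ 1 ∧ ∀ x ∈ F, (∃ x' ∈ F, x + y = x' + z) → x ∈ T := by
    by_cases hex : ∃ x ∈ F, ∃ x' ∈ F, x + y = x' + z
    · obtain ⟨x0, hx0, a0, ha0, he0⟩ := hex
      refine ⟨{x0}, by simp, fun x hx hd => ?_⟩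
      obtain ⟨a, ha, he⟩ := hd
      rcases h.two hx ha0 hx0 ha (by omega) with h' | h'
      · simp [h']
      · exfalso; apply hyz; omega
    · exact ⟨∅, by simp, fun x hx hd => absurd ⟨x, hx, hd⟩ hex⟩
  have h2 : ∃ T : Finset ℕ, T.card ≤ 2 ∧ ∀ x ∈ F, (∃ x' ∈ F, x + x' = y + z) → x ∈ T := by
    by_cases hex : ∃ x ∈ F, ∃ x' ∈ F, x + x' = y + z
    · obtain ⟨x0, hx0, a0, ha0, he0⟩ := hex
      refine ⟨{x0, a0}, card_le_two, fun x hx hd => ?_⟩
      obtain ⟨a, ha, he⟩ := hd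
      rcases h.two hx ha hx0 ha0 (by omega) with h' | h' <;> simp [h']
    · exact ⟨∅, by simp, fun x hx hd => absurd ⟨x, hx, hd⟩ hex⟩
  obtain ⟨T1, c1, H1⟩ := h1
  obtain ⟨T2, c2, H2⟩ := h2
  refine ⟨T1 ∪ T2, (card_union_le _ _).trans (by omega), fun x hx hd => ?_⟩
  rcases key x hx hd with h' | h'
  · exact mem_union_left _ (H1 x hx h')
  · exact mem_union_right _ (H2 x hx h')

/-- A `B_3`-set with two further elements has at least `choose k 2 + 2k - 11` positive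
differences. -/
lemma key_lower {F S : Finset ℕ} (h : B3 F) (hFS : F ⊆ S) {y z : ℕ} (hy : y ∈ S) (hz : z ∈ S)
    (hyF : y ∉ F) (hzF : z ∉ F) (hyz : y ≠ z) :
    F.card.choose 2 + 2 * F.card ≤ (posDiff S).card + 11 := by
  obtain ⟨TA, cA, HA⟩ := lemA h hyF
  obtain ⟨TB, cB, HB⟩ := lemB h (y := y)
  obtain ⟨TA', cA', HA'⟩ := lemA h hzF
  obtain ⟨TB', cB', HB'⟩ := lemB h (y := z)
  obtain ⟨TC, cC, HC⟩ := lemC h hyz
  set E1 := F \ (TA ∪ TB) with hE1
  set E2 := F \ (TA' ∪ TB' ∪ TC) with hE2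
  have c1 : F.card ≤ E1.card + 4 := by
    have h1 := le_card_sdiff (TA ∪ TB) F
    have h2 := card_union_le TA TB
    rw [← hE1] at h1
    omega
  have c2 : F.card ≤ E2.card + 7 := by
    have h1 := le_card_sdiff (TA' ∪ TB' ∪ TC) F
    have h2 := card_union_le (TA' ∪ TB') TC
    have h3 := card_union_le TA' TB'
    rw [← hE2] at h1
    omega
  have hsub : posDiff F ∪ E1.image (fun x => dl x y) ∪ E2.image (fun x => dl x z) ⊆ posDiff S := by
    apply union_subset (union_subset (posDiff_mono hFS) _) _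
    · intro d hd
      obtain ⟨x, hx, rfl⟩ := mem_image.1 hd
      rw [hE1, mem_sdiff] at hx
      exact dl_mem (hFS hx.1) hy (fun h' => hyF (h' ▸ hx.1))
    · intro d hd
      obtain ⟨x, hx, rfl⟩ := mem_image.1 hd
      rw [hE2, mem_sdiff] at hx
      exact dl_mem (hFS hx.1) hz (fun h' => hzF (h' ▸ hx.1))
  have hd1 : Disjoint (posDiff F) (E1.image (fun x => dl x y)) := by
    rw [Finset.disjoint_right]
    intro d hd hd'
    obtain ⟨x, hx, rfl⟩ := mem_image.1 hd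
    rw [hE1, mem_sdiff, mem_union] at hx
    exact hx.2 (Or.inl (HA x hx.1 hd'))
  have hd2 : Disjoint (posDiff F ∪ E1.image (fun x => dl x y)) (E2.image (fun x => dl x z)) := by
    rw [Finset.disjoint_right]
    intro d hd hd'
    obtain ⟨x, hx, rfl⟩ := mem_image.1 hd
    rw [hE2, mem_sdiff, mem_union, mem_union] at hx
    rcases mem_union.1 hd' with hd' | hd'
    · exact hx.2 (Or.inl (Or.inl (HA' x hx.1 hd')))
    · obtain ⟨x', hx', he⟩ := mem_image.1 hd'
      rw [hE1, mem_sdiff] at hx'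
      exact hx.2 (Or.inr (HC x hx.1 ⟨x', hx'.1, he.symm⟩))
  have i1 : (E1.image (fun x => dl x y)).card = E1.card := by
    apply card_image_of_injOn
    intro x hx x' hx' he
    by_contra hne
    rw [hE1, coe_sdiff, Set.mem_sdiff, mem_coe, mem_coe, mem_union] at hx hx'
    exact hx.2 (Or.inr (HB x hx.1 ⟨x', hx'.1, fun h' => hne h'.symm, he⟩))
  have i2 : (E2.image (fun x => dl x z)).card = E2.card := by
    apply card_image_of_injOn
    intro x hx x' hx' he
    by_contra hne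
    rw [hE2, coe_sdiff, Set.mem_sdiff, mem_coe, mem_coe, mem_union, mem_union] at hx hx'
    exact hx.2 (Or.inl (Or.inr (HB' x hx.1 ⟨x', hx'.1, fun h' => hne h'.symm, he⟩)))
  have := card_le_card hsub
  rw [card_union_of_disjoint hd2, card_union_of_disjoint hd1, i1, i2, h.card_posDiff] at this
  omega

end Pool.Agent.Q258.Divot
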