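import Mathlib
import Pool.Agent.Q258.Divot.Basic

/-!
# Counting sets with a prescribed number of differences
-/

namespace Pool.Agent.Q258.Divot

open Finset

/-- The subsets of `{0,…,n-1}` with exactly `h` positive differences. -/
def fam (n h : ℕ) : Finset (Finset ℕ) :=
  (range n).powerset.filter (fun S => (posDiff S).card = h)

lemma mem_fam {n h : ℕ} {S : Finset ℕ} : S ∈ fam n h ↔ S ⊆ range n ∧ (posDiff S).card = h := by
  simp [fam]

/-- The generic `r`-sets over `Q` in `{0,…,n-1}`. -/
def gens (n r : ℕ) (Q : Finset ℕ) : Finset (Finset ℕ) :=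
  (powersetCard r (range n)).filter (fun R => Gen Q R)

lemma mem_gens {n r : ℕ} {Q R : Finset ℕ} :
    R ∈ gens n r Q ↔ (R ⊆ range n ∧ R.card = r) ∧ Gen Q R := by
  simp [gens, mem_powersetCard]

/-- Most sets are generic. -/
lemma card_gens (n r : ℕ) (Q : Finset ℕ) (hQ : Q ⊆ range n) :
    (n - Q.card).choose (r + 1) ≤ (gens n (r + 1) Q).card +
      n.choose r * ((Q.card + r) ^ 3 + (Q.card + r) ^ 2) := by
  have h1 : powersetCard (r + 1) (range n \ Q) ⊆ gens n (r + 1) Q ∪
      (powersetCard r (range n)).biUnion (fun R => (Bad (Q ∪ R)).image (fun z => insert z R)) := by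
    intro R hR
    rw [mem_powersetCard] at hR
    have hRn : R ⊆ range n := hR.1.trans sdiff_subset
    have hdis : Disjoint Q R := by
      rw [Finset.disjoint_right]
      intro x hx
      exact (mem_sdiff.1 (hR.1 hx)).2
    by_cases hG : Gen Q R
    · exact mem_union_left _ (mem_gens.2 ⟨⟨hRn, hR.2⟩, hG⟩)
    · apply mem_union_right
      unfold Gen at hG
      have : ∃ z ∈ R, z ∈ Bad ((Q ∪ R).erase z) := by
        by_contra hcon
        push Not at hcon
        exact hG ⟨hdis, hcon⟩
      obtain ⟨z, hz, hb⟩ := this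
      rw [mem_biUnion]
      refine ⟨R.erase z, ?_, ?_⟩
      · rw [mem_powersetCard]
        exact ⟨(erase_subset _ _).trans hRn, by rw [card_erase_of_mem hz]; omega⟩
      · rw [mem_image]
        refine ⟨z, ?_, insert_erase hz⟩
        have : (Q ∪ R).erase z = Q ∪ R.erase z := by
          have hzQ : z ∉ Q := fun h => (Finset.disjoint_left.1 hdis) h hz
          ext w
          simp only [mem_erase, mem_union]
          constructor
          · rintro ⟨h1, h2 | h2⟩
            · exact Or.inl h2
            · exact Or.inr ⟨h1, h2⟩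
          · rintro (h | h)
            · exact ⟨fun h' => hzQ (h' ▸ h), Or.inl h⟩
            · exact ⟨h.1, Or.inr h.2⟩
        rwa [this] at hb
  have h2 := card_le_card h1
  rw [card_powersetCard, card_sdiff_of_subset hQ, card_range] at h2
  refine h2.trans ((card_union_le _ _).trans (Nat.add_le_add_left ?_ _))
  refine card_biUnion_le.trans ?_
  have h3 : ∀ R ∈ powersetCard r (range n),
      ((Bad (Q ∪ R)).image (fun z => insert z R)).card ≤ (Q.card + r) ^ 3 + (Q.card + r) ^ 2 := by
    intro R hR
    rw [mem_powersetCard] at hR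
    refine card_image_le.trans ((card_Bad _).trans ?_)
    have h4 : (Q ∪ R).card ≤ Q.card + r := by
      have := card_union_le Q R
      omega
    exact add_le_add (Nat.pow_le_pow_left h4 3) (Nat.pow_le_pow_left h4 2)
  refine (sum_le_sum h3).trans ?_
  rw [sum_const, card_powersetCard, card_range, smul_eq_mul]

/-! ### Lower bound for Sidon sets -/

lemma lower_sidon (n k : ℕ) :
    n.choose (k + 1) ≤ (fam n ((k + 1).choose 2)).card + n.choose k * (k ^ 3 + k ^ 2) := by
  have h := card_gens n k ∅ (empty_subset _)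
  simp only [card_empty, Nat.sub_zero, zero_add] at h
  refine h.trans (Nat.add_le_add_right (card_le_card ?_) _)
  intro R hR
  rw [mem_gens] at hR
  rw [mem_fam]
  refine ⟨hR.1.1, ?_⟩
  have := card_posDiff_gen ∅ R hR.2
  have he : posDiff ∅ = ∅ := by decide
  rw [he, empty_union, card_empty, hR.1.2] at this
  simpa using this

/-! ### Lower bound for sets with one parallelogram -/

/-- The parallelogram `{a, a+u, a+v, a+u+v}`. -/
def par (a u v : ℕ) : Finset ℕ := {a, a + u, a + v, a + u + v}

lemma mem_par {a u v x : ℕ} : x ∈ par a u v ↔ x = a ∨ x = a + u ∨ x = a + v ∨ x = a + u + v := by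
  simp [par]

lemma card_par {a u v : ℕ} (hu : 1 ≤ u) (huv : 2 * u < v) : (par a u v).card = 4 := by
  unfold par
  rw [card_insert_of_notMem, card_insert_of_notMem, card_insert_of_notMem, card_singleton] <;>
  simp only [mem_insert, mem_singleton] <;> omega

lemma posDiff_par {a u v : ℕ} (hu : 1 ≤ u) (huv : 2 * u < v) : (posDiff (par a u v)).card = 4 := by
  have : posDiff (par a u v) = {u, v, v - u, u + v} := by
    ext d
    simp only [mem_posDiff, mem_par, mem_insert, mem_singleton]
    constructor
    · rintro ⟨x, hx, y, hy, hxy, rfl⟩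
      rcases hx with rfl | rfl | rfl | rfl <;> rcases hy with rfl | rfl | rfl | rfl <;> omega
    · rintro (rfl | rfl | rfl | rfl)
      · exact ⟨a, by omega, a + d, by omega, by omega, by omega⟩
      · exact ⟨a, by omega, a + d, by omega, by omega, by omega⟩
      · exact ⟨a + u, by omega, a + v, by omega, by omega, by omega⟩
      · exact ⟨a, by omega, a + u + v, by omega, by omega, by omega⟩
  rw [this, card_insert_of_notMem, card_insert_of_notMem, card_insert_of_notMem, card_singleton] <;>
  simp only [mem_insert, mem_singleton] <;> omega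

/-- Any parallelogram in `Q ∪ R`, `R` generic over `Q`, lies in `Q`. -/
lemma par_subset {Q R : Finset ℕ} (hG : Gen Q R) {a u v : ℕ} (hu : 1 ≤ u) (huv : 2 * u < v)
    (h : par a u v ⊆ Q ∪ R) : par a u v ⊆ Q := by
  have hbad : ∀ x ∈ par a u v, x ∈ Bad ((Q ∪ R).erase x) := by
    intro x hx
    have m : ∀ y ∈ par a u v, y ≠ x → y ∈ (Q ∪ R).erase x := fun y hy hne =>
      mem_erase.2 ⟨hne, h hy⟩
    have ma : a ∈ par a u v := mem_par.2 (by omega)
    have mb : a + u ∈ par a u v := mem_par.2 (by omega)
    have mc : a + v ∈ par a u v := mem_par.2 (by omega)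
    have md : a + u + v ∈ par a u v := mem_par.2 (by omega)
    rw [mem_Bad]
    left
    rcases mem_par.1 hx with h' | h' | h' | h'
    · exact ⟨a + u, m _ mb (by omega), a + v, m _ mc (by omega), a + u + v, m _ md (by omega),
        by omega⟩
    · exact ⟨a, m _ ma (by omega), a + u + v, m _ md (by omega), a + v, m _ mc (by omega),
        by omega⟩
    · exact ⟨a, m _ ma (by omega), a + u + v, m _ md (by omega), a + u, m _ mb (by omega),
        by omega⟩
    · exact ⟨a + u, m _ mb (by omega), a + v, m _ mc (by omega), a, m _ ma (by omega),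
        by omega⟩
  intro x hx
  rcases mem_union.1 (h hx) with hQ | hR
  · exact hQ
  · exact absurd (hbad x hx) (hG.2 x hR)

lemma par_inj {a u v a' u' v' : ℕ} (hu : 1 ≤ u) (huv : 2 * u < v) (hu' : 1 ≤ u')
    (huv' : 2 * u' < v') (h : par a u v ⊆ par a' u' v') (h' : par a' u' v' ⊆ par a u v) :
    a = a' ∧ u = u' ∧ v = v' := by
  have m1 := mem_par.1 (h (mem_par.2 (Or.inl rfl)))
  have m2 := mem_par.1 (h (mem_par.2 (Or.inr (Or.inl rfl))))
  have m3 := mem_par.1 (h (mem_par.2 (Or.inr (Or.inr (Or.inl rfl)))))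
  have m4 := mem_par.1 (h (mem_par.2 (Or.inr (Or.inr (Or.inr rfl)))))
  have n1 := mem_par.1 (h' (mem_par.2 (Or.inl rfl)))
  have n2 := mem_par.1 (h' (mem_par.2 (Or.inr (Or.inl rfl))))
  have n3 := mem_par.1 (h' (mem_par.2 (Or.inr (Or.inr (Or.inl rfl)))))
  have n4 := mem_par.1 (h' (mem_par.2 (Or.inr (Or.inr (Or.inr rfl)))))
  have ha : a = a' := by omega
  subst ha
  omega

/-- The triples `(a,u,v)` used for the lower bound. -/
def trip (N : ℕ) : Finset (ℕ × ℕ × ℕ) := range N ×ˢ Icc 1 N ×ˢ Icc (2 * N + 1) (3 * N)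

lemma card_trip (N : ℕ) : (trip N).card = N ^ 3 := by
  unfold trip
  rw [card_product, card_product, card_range, Nat.card_Icc, Nat.card_Icc]
  have : 3 * N + 1 - (2 * N + 1) = N := by omega
  rw [this, Nat.add_sub_cancel]
  ring

lemma mem_trip {N a u v : ℕ} (h : (a, u, v) ∈ trip N) :
    a < N ∧ 1 ≤ u ∧ u ≤ N ∧ 2 * u < v ∧ v ≤ 3 * N := by
  simp only [trip, mem_product, mem_range, mem_Icc] at h
  omega

lemma lower_par (n N r : ℕ) (hN : 5 * N ≤ n) :
    N ^ 3 * (n - 4).choose (r + 1) ≤ (fam n ((r + 5).choose 2 - 2)).card +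
      N ^ 3 * (n.choose r * ((4 + r) ^ 3 + (4 + r) ^ 2)) := by
  have h1 : (trip N).sum (fun t => (gens n (r + 1) (par t.1 t.2.1 t.2.2)).card) ≤
      (fam n ((r + 5).choose 2 - 2)).card := by
    rw [← card_sigma]
    apply card_le_card_of_injOn (fun x => par x.1.1 x.1.2.1 x.1.2.2 ∪ x.2)
    · rintro ⟨⟨a, u, v⟩, R⟩ hx
      rw [mem_coe, mem_sigma] at hx
      obtain ⟨ht, hR⟩ := hx
      have ht' := mem_trip ht
      simp only at hR ⊢
      rw [mem_gens] at hR
      rw [mem_coe, mem_fam]
      constructor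
      · apply union_subset _ hR.1.1
        intro x hx
        rw [mem_par] at hx
        rw [mem_range]
        omega
      · have h2 := card_posDiff_gen _ R hR.2
        rw [card_par ht'.2.1 ht'.2.2.2.1, posDiff_par ht'.2.1 ht'.2.2.2.1, hR.1.2] at h2
        have h3 : Nat.choose 4 2 = 6 := by decide
        rw [h3] at h2
        have h4 : 4 + (r + 1) = r + 5 := by ring
        rw [h4] at h2
        omega
    · rintro ⟨⟨a, u, v⟩, R⟩ hx ⟨⟨a', u', v'⟩, R'⟩ hx' he
      rw [mem_coe, mem_sigma] at hx hx'
      obtain ⟨ht, hR⟩ := hx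
      obtain ⟨ht', hR'⟩ := hx'
      have ht := mem_trip ht
      have ht' := mem_trip ht'
      simp only at hR hR' he
      rw [mem_gens] at hR hR'
      have s1 : par a u v ⊆ par a' u' v' := by
        apply par_subset hR'.2 ht.2.1 ht.2.2.2.1
        rw [← he]
        exact subset_union_left
      have s2 : par a' u' v' ⊆ par a u v := by
        apply par_subset hR.2 ht'.2.1 ht'.2.2.2.1
        rw [he]
        exact subset_union_left
      obtain ⟨rfl, rfl, rfl⟩ := par_inj ht.2.1 ht.2.2.2.1 ht'.2.1 ht'.2.2.2.1 s1 s2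
      have : R = R' := by
        have e1 : R = (par a u v ∪ R) \ par a u v := by
          rw [union_sdiff_left, sdiff_eq_self_of_disjoint hR.2.1.symm]
        have e2 : R' = (par a u v ∪ R') \ par a u v := by
          rw [union_sdiff_left, sdiff_eq_self_of_disjoint hR'.2.1.symm]
        rw [e1, e2, he]
      subst this
      rfl
  have h2 : ∀ t ∈ trip N, (n - 4).choose (r + 1) ≤
      (gens n (r + 1) (par t.1 t.2.1 t.2.2)).card + n.choose r * ((4 + r) ^ 3 + (4 + r) ^ 2) := by
    rintro ⟨a, u, v⟩ ht
    have ht' := mem_trip ht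
    have := card_gens n r (par a u v) (by
      intro x hx
      rw [mem_par] at hx
      rw [mem_range]
      omega)
    rwa [card_par ht'.2.1 ht'.2.2.2.1] at this
  have h3 := sum_le_sum h2
  rw [sum_const, card_trip, smul_eq_mul, sum_add_distrib, sum_const, card_trip, smul_eq_mul] at h3
  omega

/-! ### Sets with one coincidence contain a 3-term progression -/

lemma card_pairs (S : Finset ℕ) :
    ((S ×ˢ S).filter (fun x => x.1 < x.2)).card = S.card.choose 2 := by
  set D := (S ×ˢ S).filter (fun x => x.1 < x.2) with hD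
  have h1 : S.offDiag = D ∪ D.image Prod.swap := by
    ext ⟨a, b⟩
    simp only [hD, mem_offDiag, mem_union, mem_image, mem_filter, mem_product, Prod.exists,
      Prod.swap_prod_mk, Prod.mk.injEq]
    constructor
    · rintro ⟨ha, hb, hab⟩
      rcases Nat.lt_or_gt_of_ne hab with h | h
      · exact Or.inl ⟨⟨ha, hb⟩, h⟩
      · exact Or.inr ⟨b, a, ⟨⟨hb, ha⟩, h⟩, rfl, rfl⟩
    · rintro (⟨⟨ha, hb⟩, h⟩ | ⟨x, y, ⟨⟨hx, hy⟩, h⟩, rfl, rfl⟩)
      · exact ⟨ha, hb, by omega⟩
      · exact ⟨hy, hx, by omega⟩
  have h2 : Disjoint D (D.image Prod.swap) := by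
    rw [Finset.disjoint_left]
    rintro ⟨a, b⟩ hx hx'
    obtain ⟨⟨x, y⟩, hxy, he⟩ := mem_image.1 hx'
    rw [hD, mem_filter] at hx hxy
    simp only [Prod.swap_prod_mk, Prod.mk.injEq] at hx hxy he
    omega
  have h3 := congrArg card h1
  rw [offDiag_card, card_union_of_disjoint h2, card_image_of_injective _ Prod.swap_injective] at h3
  rw [Nat.choose_two_right, Nat.mul_sub_one, h3]
  omega

lemma card_posDiff_le (S : Finset ℕ) : (posDiff S).card ≤ S.card.choose 2 := by
  rw [← card_pairs]
  exact card_image_le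

lemma exists_ap {S : Finset ℕ} (h : (posDiff S).card + 1 = S.card.choose 2) :
    ∃ a d, 1 ≤ d ∧ a ∈ S ∧ a + d ∈ S ∧ a + 2 * d ∈ S := by
  by_contra hcon
  push Not at hcon
  have hap : ∀ a ∈ S, ∀ b ∈ S, ∀ c ∈ S, a < b → b - a = c - b → a < c → False := by
    intro a ha b hb c hc hab h1 hac
    apply hcon a (b - a) (by omega) ha
    · rwa [show a + (b - a) = b by omega]
    · rwa [show a + 2 * (b - a) = c by omega]
  set D := (S ×ˢ S).filter (fun x => x.1 < x.2) with hD
  have hDc : D.card = S.card.choose 2 := card_pairs S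
  have hni : ¬ Set.InjOn (fun x : ℕ × ℕ => x.2 - x.1) D := by
    intro hinj
    have : (posDiff S).card = D.card := card_image_of_injOn hinj
    omega
  unfold Set.InjOn at hni
  push Not at hni
  obtain ⟨⟨a, b⟩, h1, ⟨c, d⟩, h2, he, hne⟩ := hni
  rw [mem_coe, hD, mem_filter, mem_product] at h1 h2
  simp only at h1 h2 he
  obtain ⟨⟨ha, hb⟩, hab⟩ := h1
  obtain ⟨⟨hc, hd⟩, hcd⟩ := h2
  have hne' : ¬ (a = c ∧ b = d) := fun h => hne (by rw [h.1, h.2])
  -- wlog `a < c`
  have main : ∀ a b c d : ℕ, a ∈ S → b ∈ S → c ∈ S → d ∈ S → a < b → c < d → b - a = d - c →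
      a < c → False := by
    intro a b c d ha hb hc hd hab hcd he hac
    by_cases hbc : b = c
    · subst hbc
      exact hap a ha b hb d hd hab he (by omega)
    · have hsub : posDiff S ⊆ (D \ {(c, d), (b, d)}).image (fun x => x.2 - x.1) := by
        intro e he'
        obtain ⟨x, hx, y, hy, hxy, rfl⟩ := mem_posDiff.1 he'
        rw [mem_image]
        by_cases h1 : (x, y) = (c, d)
        · refine ⟨(a, b), ?_, ?_⟩
          · rw [mem_sdiff, hD, mem_filter, mem_product]
            refine ⟨⟨⟨ha, hb⟩, hab⟩, ?_⟩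
            simp only [mem_insert, mem_singleton, Prod.mk.injEq]
            omega
          · rw [Prod.mk.injEq] at h1
            simp only; omega
        · by_cases h2 : (x, y) = (b, d)
          · refine ⟨(a, c), ?_, ?_⟩
            · rw [mem_sdiff, hD, mem_filter, mem_product]
              refine ⟨⟨⟨ha, hc⟩, hac⟩, ?_⟩
              simp only [mem_insert, mem_singleton, Prod.mk.injEq]
              omega
            · rw [Prod.mk.injEq] at h2
              simp only; omega
          · refine ⟨(x, y), ?_, rfl⟩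
            rw [mem_sdiff, hD, mem_filter, mem_product]
            refine ⟨⟨⟨hx, hy⟩, hxy⟩, ?_⟩
            simp only [mem_insert, mem_singleton]
            tauto
      have h3 := (card_le_card hsub).trans card_image_le
      have h4 : ({(c, d), (b, d)} : Finset (ℕ × ℕ)) ⊆ D := by
        intro x hx
        simp only [mem_insert, mem_singleton] at hx
        rw [hD, mem_filter, mem_product]
        rcases hx with rfl | rfl
        · exact ⟨⟨hc, hd⟩, hcd⟩
        · exact ⟨⟨hb, hd⟩, by simp only; omega⟩
      rw [card_sdiff_of_subset h4, card_pair (by simp only [ne_eq, Prod.mk.injEq]; omega)] at h3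
      have h5 := card_le_card h4
      rw [card_pair (by simp only [ne_eq, Prod.mk.injEq]; omega)] at h5
      omega
  rcases Nat.lt_or_ge a c with h' | h'
  · exact main a b c d ha hb hc hd hab hcd he h'
  · exact main c d a b hc hd ha hb hcd hab he.symm (by omega)

lemma upper_ap (n r : ℕ) (X : Finset (Finset ℕ))
    (hX : ∀ S ∈ X, (S ⊆ range n ∧ S.card = r + 3) ∧
      ∃ a d, 1 ≤ d ∧ a ∈ S ∧ a + d ∈ S ∧ a + 2 * d ∈ S) :
    X.card ≤ n * (n / 2) * n.choose r := by
  have hsub : X ⊆
      (range n ×ˢ Icc 1 (n / 2)).biUnion (fun x =>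
        (powersetCard r (range n)).image (fun R => {x.1, x.1 + x.2, x.1 + 2 * x.2} ∪ R)) := by
    intro S hS
    obtain ⟨⟨hSn, hSc⟩, a, d, hd, h1, h2, h3⟩ := hX S hS
    rw [mem_biUnion]
    have m3 := mem_range.1 (hSn h3)
    refine ⟨(a, d), ?_, ?_⟩
    · rw [mem_product, mem_range, mem_Icc]
      simp only
      omega
    · rw [mem_image]
      have hA : ({a, a + d, a + 2 * d} : Finset ℕ) ⊆ S := by
        intro x hx
        simp only [mem_insert, mem_singleton] at hx
        rcases hx with rfl | rfl | rfl <;> assumption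
      have hAc : ({a, a + d, a + 2 * d} : Finset ℕ).card = 3 :=
        card_eq_three.2 ⟨a, a + d, a + 2 * d, by omega, by omega, by omega, rfl⟩
      refine ⟨S \ {a, a + d, a + 2 * d}, ?_, ?_⟩
      · rw [mem_powersetCard]
        refine ⟨sdiff_subset.trans hSn, ?_⟩
        rw [card_sdiff_of_subset hA, hAc, hSc]
        omega
      · exact union_sdiff_of_subset hA
  refine (card_le_card hsub).trans (card_biUnion_le.trans ?_)
  have : ∀ x ∈ range n ×ˢ Icc 1 (n / 2),
      ((powersetCard r (range n)).image (fun R => {x.1, x.1 + x.2, x.1 + 2 * x.2} ∪ R)).card ≤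
        n.choose r := by
    intro x _
    refine card_image_le.trans ?_
    rw [card_powersetCard, card_range]
  refine (sum_le_sum this).trans ?_
  rw [sum_const, card_product, card_range, Nat.card_Icc, smul_eq_mul, Nat.add_sub_cancel]

end Pool.Agent.Q258.Divot
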