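import Mathlib
import Pool.Agent.Q258.Divot.Count

/-!
# Sets of low rank are rare
-/

namespace Pool.Agent.Q258.Divot

open Finset

/-- Sums of at most three elements of `F`. -/
def sum3 (F : Finset ℕ) : Finset ℕ :=
  ((insert 0 F) ×ˢ (insert 0 F) ×ˢ (insert 0 F)).image (fun x => x.1 + x.2.1 + x.2.2)

lemma mem_sum3 {F : Finset ℕ} {a b c : ℕ} (ha : a ∈ insert 0 F) (hb : b ∈ insert 0 F)
    (hc : c ∈ insert 0 F) : a + b + c ∈ sum3 F := by
  unfold sum3
  rw [mem_image]
  exact ⟨(a, b, c), by simp only [mem_product]; exact ⟨ha, hb, hc⟩, rfl⟩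

lemma card_sum3 (F : Finset ℕ) : (sum3 F).card ≤ (F.card + 1) ^ 3 := by
  unfold sum3
  refine card_image_le.trans ?_
  rw [card_product, card_product]
  have := card_insert_le 0 F
  calc (insert 0 F).card * ((insert 0 F).card * (insert 0 F).card)
      ≤ (F.card + 1) * ((F.card + 1) * (F.card + 1)) :=
        Nat.mul_le_mul this (Nat.mul_le_mul this this)
    _ = (F.card + 1) ^ 3 := by ring

/-- The numbers tied to `F` by a relation with at most three terms on both sides. -/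
def Lam (F : Finset ℕ) : Finset ℕ :=
  (range 4 ×ˢ range 4 ×ˢ sum3 F ×ˢ sum3 F).image (fun x =>
    if x.2.1 < x.1 then (x.2.2.2 - x.2.2.1) / (x.1 - x.2.1)
    else (x.2.2.1 - x.2.2.2) / (x.2.1 - x.1))

lemma card_Lam (F : Finset ℕ) : (Lam F).card ≤ 16 * (F.card + 1) ^ 6 := by
  unfold Lam
  refine card_image_le.trans ?_
  rw [card_product, card_product, card_product, card_range]
  have := card_sum3 F
  calc 4 * (4 * ((sum3 F).card * (sum3 F).card))
      ≤ 4 * (4 * ((F.card + 1) ^ 3 * (F.card + 1) ^ 3)) :=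
        Nat.mul_le_mul_left _ (Nat.mul_le_mul_left _ (Nat.mul_le_mul this this))
    _ = 16 * (F.card + 1) ^ 6 := by ring

lemma mem_Lam {F : Finset ℕ} {y c d p q : ℕ} (hc : c < 4) (hd : d < 4) (hcd : c ≠ d)
    (hp : p ∈ sum3 F) (hq : q ∈ sum3 F) (he : c * y + p = d * y + q) : y ∈ Lam F := by
  unfold Lam
  rw [mem_image]
  refine ⟨(c, d, p, q), ?_, ?_⟩
  · simp only [mem_product, mem_range]
    exact ⟨hc, hd, hp, hq⟩
  · simp only
    rcases Nat.lt_or_gt_of_ne hcd with h | h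
    · rw [if_neg (by omega)]
      obtain ⟨e, rfl⟩ : ∃ e, d = c + e := ⟨d - c, by omega⟩
      have h1 : p - q = e * y := by
        have : (c + e) * y = c * y + e * y := by ring
        omega
      rw [h1, Nat.add_sub_cancel_left]
      exact Nat.mul_div_cancel_left y (by omega)
    · rw [if_pos h]
      obtain ⟨e, rfl⟩ : ∃ e, c = d + e := ⟨c - d, by omega⟩
      have h1 : q - p = e * y := by
        have : (d + e) * y = d * y + e * y := by ring
        omega
      rw [h1, Nat.add_sub_cancel_left]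
      exact Nat.mul_div_cancel_left y (by omega)

lemma mem_Lam_of_not_B3 {F : Finset ℕ} (h : B3 F) {y : ℕ} (hn : ¬ B3 (insert y F)) :
    y ∈ Lam F := by
  unfold B3 at hn
  push Not at hn
  obtain ⟨a, ha, b, hb, c, hc, a', ha', b', hb', c', hc', he, n1, n2, n3⟩ := hn
  have cs : ∀ x ∈ insert y F, ∃ ε v : ℕ, (ε = 0 ∧ x ∈ F ∧ v = x) ∨ (ε = 1 ∧ x = y ∧ v = 0) := by
    intro x hx
    rcases mem_insert.1 hx with h | h
    · exact ⟨1, 0, Or.inr ⟨rfl, h, rfl⟩⟩
    · exact ⟨0, x, Or.inl ⟨rfl, h, rfl⟩⟩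
  have hv : ∀ x ε v : ℕ, ((ε = 0 ∧ x ∈ F ∧ v = x) ∨ (ε = 1 ∧ x = y ∧ v = 0)) →
      ε ≤ 1 ∧ v ∈ insert 0 F ∧ x = ε * y + v := by
    rintro x ε v (⟨rfl, h2, rfl⟩ | ⟨rfl, rfl, rfl⟩)
    · exact ⟨by omega, mem_insert_of_mem h2, by omega⟩
    · exact ⟨by omega, mem_insert_self _ _, by omega⟩
  obtain ⟨e1, v1, w1⟩ := cs a ha
  obtain ⟨e2, v2, w2⟩ := cs b hb
  obtain ⟨e3, v3, w3⟩ := cs c hc
  obtain ⟨e1', v1', w1'⟩ := cs a' ha'
  obtain ⟨e2', v2', w2'⟩ := cs b' hb'
  obtain ⟨e3', v3', w3'⟩ := cs c' hc'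
  by_cases hε : e1 + e2 + e3 = e1' + e2' + e3'
  · exfalso
    rcases w1 with ⟨q1, m1, -⟩ | ⟨q1, m1, -⟩ <;> rcases w2 with ⟨q2, m2, -⟩ | ⟨q2, m2, -⟩ <;>
    rcases w3 with ⟨q3, m3, -⟩ | ⟨q3, m3, -⟩ <;> rcases w1' with ⟨q1', m1', -⟩ | ⟨q1', m1', -⟩ <;>
    rcases w2' with ⟨q2', m2', -⟩ | ⟨q2', m2', -⟩ <;>
    rcases w3' with ⟨q3', m3', -⟩ | ⟨q3', m3', -⟩ <;>
    first
    | omega
    | exact absurd (h a m1 b m2 c m3 a' m1' b' m2' c' m3' he) (by omega)
    | exact absurd (h.two m1 m3 m2' m3' (by omega)) (by omega)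
    | exact absurd (h.two m1 m2 m2' m3' (by omega)) (by omega)
    | exact absurd (h.two m1 m3 m1' m3' (by omega)) (by omega)
    | exact absurd (h.two m1 m2 m1' m3' (by omega)) (by omega)
    | exact absurd (h.two m1 m3 m1' m2' (by omega)) (by omega)
    | exact absurd (h.two m1 m2 m1' m2' (by omega)) (by omega)
  · obtain ⟨a1, b1, c1⟩ := hv _ _ _ w1
    obtain ⟨a2, b2, c2⟩ := hv _ _ _ w2
    obtain ⟨a3, b3, c3⟩ := hv _ _ _ w3
    obtain ⟨a1', b1', c1'⟩ := hv _ _ _ w1'
    obtain ⟨a2', b2', c2'⟩ := hv _ _ _ w2'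
    obtain ⟨a3', b3', c3'⟩ := hv _ _ _ w3'
    apply mem_Lam (c := e1 + e2 + e3) (d := e1' + e2' + e3') (by omega) (by omega) hε
      (mem_sum3 b1 b2 b3) (mem_sum3 b1' b2' b3')
    have h1 : (e1 + e2 + e3) * y + (v1 + v2 + v3) = a + b + c := by
      rw [c1, c2, c3]; ring
    have h2 : (e1' + e2' + e3') * y + (v1' + v2' + v3') = a' + b' + c' := by
      rw [c1', c2', c3']; ring
    rw [h1, h2, he]

lemma B3_empty : B3 ∅ := fun a ha => absurd ha (by simp)

lemma subset_of_maximal (S : Finset ℕ) :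
    ∃ F ⊆ S, B3 F ∧ S ⊆ F ∪ Lam F := by
  classical
  obtain ⟨F, hF, hmax⟩ := Finset.exists_max_image (S.powerset.filter (fun F => B3 F)) card
    ⟨∅, by simp [B3_empty]⟩
  rw [mem_filter, mem_powerset] at hF
  refine ⟨F, hF.1, hF.2, fun y hy => ?_⟩
  rw [mem_union]
  by_cases hyF : y ∈ F
  · exact Or.inl hyF
  · right
    apply mem_Lam_of_not_B3 hF.2
    intro hB
    have := hmax (insert y F) (by
      rw [mem_filter, mem_powerset]
      exact ⟨insert_subset hy hF.1, hB⟩)
    rw [card_insert_of_notMem hyF] at this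
    omega

lemma card_small (n k : ℕ) (hn : 1 ≤ n) :
    ((range n).powerset.filter (fun F => F.card < k)).card ≤ k * n ^ (k - 1) := by
  have hsub : (range n).powerset.filter (fun F => F.card < k) ⊆
      (range k).biUnion (fun i => powersetCard i (range n)) := by
    intro F hF
    rw [mem_filter, mem_powerset] at hF
    rw [mem_biUnion]
    exact ⟨F.card, mem_range.2 hF.2, mem_powersetCard.2 ⟨hF.1, rfl⟩⟩
  refine (card_le_card hsub).trans (card_biUnion_le.trans ?_)
  have : ∀ i ∈ range k, (powersetCard i (range n)).card ≤ n ^ (k - 1) := by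
    intro i hi
    rw [mem_range] at hi
    rw [card_powersetCard, card_range]
    exact (Nat.choose_le_pow n i).trans (Nat.pow_le_pow_right hn (by omega))
  refine (sum_le_sum this).trans ?_
  rw [sum_const, card_range, smul_eq_mul]

/-- The number of sets all of whose `B_3`-subsets have fewer than `k` elements. -/
lemma card_lowrank (n k : ℕ) (hn : 1 ≤ n) (X : Finset (Finset ℕ))
    (hX : ∀ S ∈ X, S ⊆ range n ∧ ∀ F ⊆ S, B3 F → F.card < k) :
    X.card ≤ k * n ^ (k - 1) * 2 ^ (k + 16 * k ^ 6) := by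
  have hsub : X ⊆ ((range n).powerset.filter (fun F => F.card < k)).biUnion
      (fun F => (F ∪ Lam F).powerset) := by
    intro S hS
    obtain ⟨hSn, hSF⟩ := hX S hS
    obtain ⟨F, hFS, hB, hSub⟩ := subset_of_maximal S
    rw [mem_biUnion]
    refine ⟨F, ?_, mem_powerset.2 hSub⟩
    rw [mem_filter, mem_powerset]
    exact ⟨hFS.trans hSn, hSF F hFS hB⟩
  refine (card_le_card hsub).trans (card_biUnion_le.trans ?_)
  have : ∀ F ∈ (range n).powerset.filter (fun F => F.card < k),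
      ((F ∪ Lam F).powerset).card ≤ 2 ^ (k + 16 * k ^ 6) := by
    intro F hF
    rw [mem_filter] at hF
    rw [card_powerset]
    apply Nat.pow_le_pow_right (by norm_num)
    refine (card_union_le _ _).trans (add_le_add (by omega) ((card_Lam F).trans ?_))
    exact Nat.mul_le_mul_left _ (Nat.pow_le_pow_left (by omega) 6)
  refine (sum_le_sum this).trans ?_
  rw [sum_const, smul_eq_mul]
  exact Nat.mul_le_mul_right _ (card_small n k hn)

/-- Upper bound for the number of sets with one coincidence. -/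
lemma upper_fam (n r : ℕ) (hr : 9 ≤ r) (hn : 1 ≤ n) :
    (fam n ((r + 3).choose 2 - 1)).card ≤ n * (n / 2) * n.choose r +
      (r + 2) * n ^ (r + 1) * 2 ^ ((r + 2) + 16 * (r + 2) ^ 6) := by
  have hc1 : (r + 3).choose 2 = (r + 2) + (r + 2).choose 2 := by
    rw [Nat.choose_succ_succ' (r + 2) 1, Nat.choose_one_right]
  have hsplit : fam n ((r + 3).choose 2 - 1) =
      (fam n ((r + 3).choose 2 - 1)).filter (fun S => S.card = r + 3) ∪
      (fam n ((r + 3).choose 2 - 1)).filter (fun S => ¬ S.card = r + 3) :=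
    (filter_union_filter_not_eq _ _).symm
  rw [hsplit]
  refine (card_union_le _ _).trans (add_le_add ?_ ?_)
  · apply upper_ap
    intro S hS
    rw [mem_filter, mem_fam] at hS
    refine ⟨⟨hS.1.1, hS.2⟩, exists_ap ?_⟩
    rw [hS.1.2, hS.2]
    omega
  · have := card_lowrank n (r + 2) hn
      ((fam n ((r + 3).choose 2 - 1)).filter (fun S => ¬ S.card = r + 3)) ?_
    · simpa using this
    intro S hS
    rw [mem_filter, mem_fam] at hS
    obtain ⟨⟨hSn, hSd⟩, hSc⟩ := hS
    refine ⟨hSn, fun F hF hB => ?_⟩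
    by_contra hlt
    push Not at hlt
    -- `S` has at least `r + 4` elements
    have hS4 : r + 4 ≤ S.card := by
      by_contra hlt'
      push Not at hlt'
      have h1 : S.card ≤ r + 2 := by omega
      have h2 := card_posDiff_le S
      have h3 := Nat.choose_le_choose 2 h1
      omega
    obtain ⟨G, hGF, hGc⟩ := exists_subset_card_eq hlt
    have hGS : G ⊆ S := hGF.trans hF
    have h5 : 1 < (S \ G).card := by
      rw [card_sdiff_of_subset hGS]; omega
    obtain ⟨y, hy, z, hz, hyz⟩ := one_lt_card.1 h5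
    rw [mem_sdiff] at hy hz
    have h6 := key_lower (hB.mono hGF) hGS hy.1 hz.1 hy.2 hz.2 hyz
    rw [hGc, hSd] at h6
    omega

/-- There are sets with exactly one coincidence. -/
lemma exists_one (m : ℕ) : ∃ S : Finset ℕ, S.card = m + 3 ∧
    (posDiff S).card + 1 = (m + 3).choose 2 := by
  induction m with
  | zero => exact ⟨{0, 1, 2}, by decide, by decide⟩
  | succ m ih =>
    obtain ⟨S, hS, hd⟩ := ih
    obtain ⟨z, hz⟩ := Infinite.exists_notMem_finset (Bad S)
    refine ⟨insert z S, ?_, ?_⟩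
    · rw [card_insert_of_notMem (not_mem_of_not_Bad hz), hS]
    · rw [card_posDiff_insert hz, hS]
      have hc1 : (m + 1 + 3).choose 2 = (m + 3) + (m + 3).choose 2 := by
        rw [show m + 1 + 3 = (m + 3) + 1 by ring, Nat.choose_succ_succ' (m + 3) 1,
          Nat.choose_one_right]
      omega

end Pool.Agent.Q258.Divot
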