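import Mathlib
import Pool.Agent.Q258.Divot.Rank

/-!
# Comparison of the counts
-/

namespace Pool.Agent.Q258.Divot

open Finset

lemma pow_lower (x c : ℝ) (m : ℕ) (hx : 0 < x) (hcx : c ≤ x) :
    x ^ (m + 1) - (m + 1) * c * x ^ m ≤ (x - c) ^ (m + 1) := by
  have h1 : (-2 : ℝ) ≤ -(c / x) := by
    have : c / x ≤ 1 := by rw [div_le_one hx]; exact hcx
    linarith
  have h2 := one_add_mul_le_pow h1 (m + 1)
  have h3 : (x - c) ^ (m + 1) = x ^ (m + 1) * (1 + -(c / x)) ^ (m + 1) := by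
    rw [← mul_pow]; congr 1; field_simp; ring
  rw [h3]
  have h4 : x ^ (m + 1) * (1 + ((m + 1 : ℕ) : ℝ) * -(c / x)) ≤
      x ^ (m + 1) * (1 + -(c / x)) ^ (m + 1) :=
    mul_le_mul_of_nonneg_left h2 (by positivity)
  refine le_trans (le_of_eq ?_) h4
  push_cast
  rw [pow_succ]
  field_simp
  ring

lemma choose_lower (n m : ℕ) (hm : m ≤ n) :
    ((n : ℝ) - m) ^ (m + 1) / (m + 1).factorial ≤ (n.choose (m + 1) : ℝ) := by
  have h1 : (n + 1 - (m + 1)) ^ (m + 1) ≤ n.descFactorial (m + 1) :=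
    Nat.pow_sub_le_descFactorial n (m + 1)
  rw [Nat.descFactorial_eq_factorial_mul_choose] at h1
  rw [div_le_iff₀ (by positivity)]
  have h2 : ((n - m : ℕ) : ℝ) = (n : ℝ) - m := Nat.cast_sub hm
  rw [Nat.add_sub_add_right] at h1
  have h3 : ((n - m : ℕ) : ℝ) ^ (m + 1) ≤ ((m + 1).factorial : ℝ) * (n.choose (m + 1) : ℝ) := by
    exact_mod_cast h1
  rw [h2] at h3
  linarith

lemma choose_upper (n m : ℕ) : (n.choose m : ℝ) ≤ (n : ℝ) ^ m / m.factorial :=
  Nat.choose_le_pow_div m n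

lemma choose_upper' (n m : ℕ) : (n.choose m : ℝ) ≤ (n : ℝ) ^ m := by
  exact_mod_cast Nat.choose_le_pow n m

lemma upper_fam' (r : ℕ) (hr : 9 ≤ r) : ∃ C : ℕ, ∀ n : ℕ, 1 ≤ n →
    (fam n ((r + 3).choose 2 - 1)).card ≤ n * (n / 2) * n.choose r + C * n ^ (r + 1) := by
  refine ⟨(r + 2) * 2 ^ ((r + 2) + 16 * (r + 2) ^ 6), fun n hn => ?_⟩
  refine (upper_fam n r hr hn).trans (le_of_eq ?_)
  generalize 2 ^ ((r + 2) + 16 * (r + 2) ^ 6) = E
  ring

/-- The three counts. -/
theorem counts (s : ℕ) (hs : 61 ≤ s) : ∃ N0 : ℕ, ∀ n ≥ N0,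
    (fam n ((s + 5).choose 2 - 1)).card < (fam n ((s + 5).choose 2 - 2)).card ∧
    (fam n ((s + 5).choose 2 - 1)).card < (fam n ((s + 5).choose 2)).card := by
  -- constants
  obtain ⟨C, hC⟩ := upper_fam' (s + 2) (by omega)
  set A : ℝ := (C : ℝ) with hA
  set K : ℝ := (4 + s) ^ 3 + (4 + s) ^ 2 with hK
  set f1 : ℝ := ((s + 1).factorial : ℝ) with hf1
  have hf1pos : 0 < f1 := by rw [hf1]; positivity
  have hf2 : ((s + 2).factorial : ℝ) = (s + 2) * f1 := by
    rw [hf1, Nat.factorial_succ (s + 1)]; push_cast; ring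
  have hApos : 0 ≤ A := by positivity
  have hKpos : 0 ≤ K := by positivity
  have hsr : (61 : ℝ) ≤ s := by exact_mod_cast hs
  set α : ℝ := 1 / (125 * f1) - 1 / (2 * ((s + 2) * f1)) with hα
  have hαpos : 0 < α := by
    rw [hα, sub_pos]
    apply one_div_lt_one_div_of_lt (by positivity)
    nlinarith
  set B1 : ℝ := (s + 4) * (s + 4) / (125 * f1) + A + K with hB1
  set f5 : ℝ := ((s + 5).factorial : ℝ) with hf5
  have hf5pos : 0 < f5 := by rw [hf5]; positivity
  set B2 : ℝ := (s + 5) * (s + 4) / f5 + K + 1 + A with hB2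
  obtain ⟨M1, hM1⟩ := exists_nat_gt (B1 / α)
  obtain ⟨M2, hM2⟩ := exists_nat_gt (B2 * f5)
  refine ⟨M1 + M2 + s + 5, fun n hn => ?_⟩
  have hn5 : s + 5 ≤ n := by omega
  have hn1 : 1 ≤ n := by omega
  set x : ℝ := (n : ℝ) with hx
  have hx1 : (1 : ℝ) ≤ x := by rw [hx]; exact_mod_cast hn1
  have hxs : (s : ℝ) + 5 ≤ x := by rw [hx]; exact_mod_cast hn5
  have hxM1 : (M1 : ℝ) ≤ x := by rw [hx]; exact_mod_cast (by omega : M1 ≤ n)
  have hxM2 : (M2 : ℝ) ≤ x := by rw [hx]; exact_mod_cast (by omega : M2 ≤ n)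
  have hx0 : 0 < x := by linarith
  -- upper bound
  have hU : ((fam n ((s + 5).choose 2 - 1)).card : ℝ) ≤
      x ^ (s + 4) / (2 * ((s + 2) * f1)) + A * x ^ (s + 3) := by
    have h1 := hC n hn1
    have h2 : ((fam n ((s + 5).choose 2 - 1)).card : ℝ) ≤
        x * ((n / 2 : ℕ) : ℝ) * (n.choose (s + 2) : ℝ) + A * x ^ (s + 3) := by
      rw [hx, hA]
      exact_mod_cast h1
    have h3 : ((n / 2 : ℕ) : ℝ) ≤ x / 2 := by
      rw [hx]; exact_mod_cast Nat.cast_div_le (α := ℝ) (m := n) (n := 2)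
    have h4 := choose_upper n (s + 2)
    rw [hf2] at h4
    have h5 : x * ((n / 2 : ℕ) : ℝ) * (n.choose (s + 2) : ℝ) ≤
        x * (x / 2) * (x ^ (s + 2) / ((s + 2) * f1)) := by
      gcongr
    refine h2.trans (add_le_add (h5.trans (le_of_eq ?_)) le_rfl)
    field_simp
    ring
  -- lower bound, parallelograms
  have hL1 : x ^ (s + 4) / (125 * f1) - (s + 4) * (s + 4) / (125 * f1) * x ^ (s + 3)
      - K * x ^ (s + 3) ≤ ((fam n ((s + 5).choose 2 - 2)).card : ℝ) := by
    have h1 := lower_par n (n / 5) s (by omega)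
    have h2 : (((n / 5 : ℕ) : ℝ)) ^ 3 * (((n - 4).choose (s + 1) : ℕ) : ℝ) ≤
        ((fam n ((s + 5).choose 2 - 2)).card : ℝ) +
        (((n / 5 : ℕ) : ℝ)) ^ 3 * ((n.choose s : ℝ) * K) := by
      have := (Nat.cast_le (α := ℝ)).2 h1
      push_cast at this
      rw [hK]
      exact this
    have h3 : (x - 4) / 5 ≤ ((n / 5 : ℕ) : ℝ) := by
      have : n ≤ 5 * (n / 5) + 4 := by omega
      have : x ≤ 5 * ((n / 5 : ℕ) : ℝ) + 4 := by rw [hx]; exact_mod_cast this
      linarith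
    have h3' : ((n / 5 : ℕ) : ℝ) ≤ x := by
      rw [hx]; exact_mod_cast Nat.div_le_self n 5
    have h4 := choose_lower (n - 4) s (by omega)
    have h5 : (((n - 4 : ℕ)) : ℝ) = x - 4 := by
      rw [Nat.cast_sub (by omega)]; push_cast; rfl
    rw [h5] at h4
    have h6 : (x - (s + 4)) ^ (s + 4) / (125 * f1) ≤
        (((n / 5 : ℕ) : ℝ)) ^ 3 * (((n - 4).choose (s + 1) : ℕ) : ℝ) := by
      have e1 : (x - (s + 4)) ^ (s + 4) / (125 * f1) =
          ((x - (s + 4)) / 5) ^ 3 * ((x - (s + 4)) ^ (s + 1) / f1) := by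
        rw [show s + 4 = 3 + (s + 1) by ring, pow_add]
        field_simp
        ring
      rw [e1]
      have hxx : 0 ≤ x - (s + 4) := by linarith
      have e2 : (x - 4 - (s : ℝ)) = x - (s + 4) := by ring
      rw [e2] at h4
      apply mul_le_mul _ h4 (by positivity) (by positivity)
      apply pow_le_pow_left₀ (by positivity)
      refine le_trans ?_ h3
      have : (0 : ℝ) ≤ s := by positivity
      linarith
    have h7 := pow_lower x (s + 4) (s + 3) hx0 (by linarith)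
    have h8 : (((n / 5 : ℕ) : ℝ)) ^ 3 * ((n.choose s : ℝ) * K) ≤ x ^ 3 * (x ^ s * K) := by
      have := choose_upper' n s
      gcongr
    have h9 : x ^ 3 * (x ^ s * K) = K * x ^ (s + 3) := by ring
    have h10 : (x ^ (s + 4) - (s + 4) * (s + 4) * x ^ (s + 3)) / (125 * f1) ≤
        (x - (s + 4)) ^ (s + 4) / (125 * f1) := by
      apply div_le_div_of_nonneg_right _ (by positivity)
      refine le_trans (le_of_eq ?_) h7
      push_cast; ring
    have h11 : (x ^ (s + 4) - (s + 4) * (s + 4) * x ^ (s + 3)) / (125 * f1) =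
        x ^ (s + 4) / (125 * f1) - (s + 4) * (s + 4) / (125 * f1) * x ^ (s + 3) := by
      ring
    rw [h11] at h10
    rw [h9] at h8
    linarith
  -- lower bound, Sidon sets
  have hL2 : x ^ (s + 5) / f5 - (s + 5) * (s + 4) / f5 * x ^ (s + 4) - K * x ^ (s + 4) ≤
      ((fam n ((s + 5).choose 2)).card : ℝ) := by
    have h1 := lower_sidon n (s + 4)
    have h2 : ((n.choose (s + 5) : ℕ) : ℝ) ≤ ((fam n ((s + 5).choose 2)).card : ℝ) +
        (n.choose (s + 4) : ℝ) * K := by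
      have := (Nat.cast_le (α := ℝ)).2 h1
      push_cast at this
      rw [hK, add_comm (4 : ℝ) s]
      exact this
    have h4 := choose_lower n (s + 4) (by omega)
    have h7 := pow_lower x (s + 4) (s + 4) hx0 (by linarith)
    have h8 : (n.choose (s + 4) : ℝ) * K ≤ x ^ (s + 4) * K := by
      have := choose_upper' n (s + 4)
      gcongr
    have h10 : (x ^ (s + 5) - (s + 5) * (s + 4) * x ^ (s + 4)) / f5 ≤
        (n.choose (s + 5) : ℝ) := by
      refine le_trans ?_ h4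
      push_cast
      rw [hf5]
      apply div_le_div_of_nonneg_right _ (by positivity)
      refine le_trans (le_of_eq ?_) h7
      push_cast; ring
    have h11 : (x ^ (s + 5) - (s + 5) * (s + 4) * x ^ (s + 4)) / f5 =
        x ^ (s + 5) / f5 - (s + 5) * (s + 4) / f5 * x ^ (s + 4) := by ring
    rw [h11] at h10
    linarith
  have hxp : 0 < x ^ (s + 3) := by positivity
  constructor
  · have h1 : B1 < α * x := by
      rw [div_lt_iff₀ hαpos] at hM1
      nlinarith
    have h2 : B1 * x ^ (s + 3) < α * x * x ^ (s + 3) := by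
      exact mul_lt_mul_of_pos_right h1 hxp
    have h3 : α * x * x ^ (s + 3) = x ^ (s + 4) / (125 * f1) - x ^ (s + 4) / (2 * ((s + 2) * f1)) := by
      rw [hα]; ring
    rw [h3, hB1] at h2
    have e : ((s + 4) * (s + 4) / (125 * f1) + A + K) * x ^ (s + 3) =
        (s + 4) * (s + 4) / (125 * f1) * x ^ (s + 3) + A * x ^ (s + 3) + K * x ^ (s + 3) := by
      ring
    rw [e] at h2
    have h4 : ((fam n ((s + 5).choose 2 - 1)).card : ℝ) <
        ((fam n ((s + 5).choose 2 - 2)).card : ℝ) := by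
      linarith
    exact_mod_cast h4
  · have h1 : B2 * f5 < x := lt_of_lt_of_le hM2 hxM2
    have h1' : B2 < x / f5 := by rw [lt_div_iff₀ hf5pos]; exact h1
    have hxp4 : 0 < x ^ (s + 4) := by positivity
    have h2 : B2 * x ^ (s + 4) < x / f5 * x ^ (s + 4) := mul_lt_mul_of_pos_right h1' hxp4
    have h3 : x / f5 * x ^ (s + 4) = x ^ (s + 5) / f5 := by ring
    rw [h3, hB2] at h2
    have h5 : x ^ (s + 4) / (2 * ((s + 2) * f1)) ≤ x ^ (s + 4) := by
      apply div_le_self hxp4.le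
      have h51 : 1 ≤ f1 := by
        rw [hf1]; exact_mod_cast Nat.factorial_pos _
      have h52 : (1 : ℝ) ≤ (s : ℝ) + 2 := by linarith
      have h53 : 1 * 1 ≤ ((s : ℝ) + 2) * f1 :=
        mul_le_mul h52 h51 zero_le_one (by linarith)
      linarith
    have h6 : A * x ^ (s + 3) ≤ A * x ^ (s + 4) := by
      apply mul_le_mul_of_nonneg_left _ hApos
      exact pow_le_pow_right₀ hx1 (by omega)
    have e : ((s + 5) * (s + 4) / f5 + K + 1 + A) * x ^ (s + 4) =
        (s + 5) * (s + 4) / f5 * x ^ (s + 4) + K * x ^ (s + 4) + x ^ (s + 4) +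
        A * x ^ (s + 4) := by ring
    rw [e] at h2
    have h4 : ((fam n ((s + 5).choose 2 - 1)).card : ℝ) <
        ((fam n ((s + 5).choose 2)).card : ℝ) := by
      linarith
    exact_mod_cast h4

end Pool.Agent.Q258.Divot
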